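import Pool.Agent.H55.CG.Targets

/-!
# MP_65efe8_pr, board cog_modules: rows PZS, PZU, PZM (the pinned partition function)
-/

set_option autoImplicit false

open MeasureTheory ProbabilityTheory Filter Topology
open Pool.Agent.H95 Pool.Agent.H95.Cop Pool.Agent.H55.CG

namespace Pool.Agent.H19.CG

private theorem pz_zero (K : PMF ℕ) (x : ℕ → ℝ) (a : ℕ) : pz K x 0 a = 1 := by
  rw [pz]

private theorem pz_succ (K : PMF ℕ) (x : ℕ → ℝ) (a d : ℕ) :
    pz K x (d + 1) a = ∑ j ∈ Finset.range (d + 1),
      kk K (j + 1) * wt x a (a + (j + 1)) * pz K x (d - j) (a + (j + 1)) := by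
  rw [pz, Finset.sum_range]

private theorem pz_nonneg (K : PMF ℕ) (x : ℕ → ℝ) (d : ℕ) : ∀ a, 0 ≤ pz K x d a := by
  induction d using Nat.strong_induction_on with
  | _ d ih =>
    intro a
    cases d with
    | zero => rw [pz_zero]; norm_num
    | succ d =>
      rw [pz_succ]
      refine Finset.sum_nonneg fun j _ => ?_
      exact mul_nonneg (mul_nonneg (kk_nonneg _ _) (wt_pos _ _ _).le) (ih _ (by omega) _)

private theorem wt_shift (x : ℕ → ℝ) (t a b : ℕ) : wt (shift t x) a b = wt x (a + t) (b + t) := by
  unfold wt
  rw [H_shift]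

private theorem pz_shift (K : PMF ℕ) (x : ℕ → ℝ) (t d : ℕ) :
    ∀ a, pz K (shift t x) d a = pz K x d (a + t) := by
  induction d using Nat.strong_induction_on with
  | _ d ih =>
    intro a
    cases d with
    | zero => rw [pz_zero, pz_zero]
    | succ d =>
      rw [pz_succ, pz_succ]
      refine Finset.sum_congr rfl fun j _ => ?_
      rw [ih _ (by omega), wt_shift]
      have e : a + (j + 1) + t = a + t + (j + 1) := by omega
      rw [e]

theorem pf_PZS : T_PZS := fun K x a d t =>
  ⟨pz_zero K x a, pz_succ K x a d, pz_nonneg K x d a, pz_shift K x t d a⟩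

theorem pf_PZU (hPZS : T_PZS) : T_PZU := by
  intro K x d
  induction d using Nat.strong_induction_on with
  | _ d ih =>
    intro a
    cases d with
    | zero =>
      rw [(hPZS K x a 0 0).1, uu_zero, Nat.add_zero]
      unfold H
      simp
    | succ d =>
      rw [(hPZS K x a d 0).2.1, uu_succ, Finset.sum_mul]
      refine Finset.sum_le_sum fun j hj => ?_
      rw [Finset.mem_range] at hj
      have h1 : H x a (a + (d + 1)) = H x a (a + (j + 1)) +
          H x (a + (j + 1)) (a + (j + 1) + (d - j)) := by
        have e : a + (d + 1) = a + (j + 1) + (d - j) := by omega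
        rw [e, H_add x (by omega) (by omega)]
      rw [h1, add_div, Real.exp_add]
      have h2 := ih (d - j) (by omega) (a + (j + 1))
      have h3 := wt_ge x a (a + (j + 1))
      have h4 := kk_nonneg K (j + 1)
      have h5 := uu_nonneg (kk K) (kk_nonneg K) (d - j)
      calc kk K (j + 1) * uu (kk K) (d - j) * (Real.exp (H x a (a + (j + 1)) / 2) *
            Real.exp (H x (a + (j + 1)) (a + (j + 1) + (d - j)) / 2))
          = kk K (j + 1) * Real.exp (H x a (a + (j + 1)) / 2) * (uu (kk K) (d - j) *
            Real.exp (H x (a + (j + 1)) (a + (j + 1) + (d - j)) / 2)) := by ring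
        _ ≤ kk K (j + 1) * wt x a (a + (j + 1)) * pz K x (d - j) (a + (j + 1)) :=
            mul_le_mul (mul_le_mul_of_nonneg_left h3 h4) h2
              (mul_nonneg h5 (Real.exp_pos _).le)
              (mul_nonneg h4 (wt_pos _ _ _).le)

private theorem H_measurable (a b : ℕ) : Measurable (fun x : ℕ → ℝ => H x a b) := by
  unfold H
  exact Finset.measurable_sum _ fun i _ => measurable_pi_apply i

private theorem wt_measurable (a b : ℕ) : Measurable (fun x : ℕ → ℝ => wt x a b) := by
  unfold wt
  exact ((measurable_const.add (H_measurable a b).exp)).div_const _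

private theorem wt_dep (a b : ℕ) (x x' : ℕ → ℝ) (h : ∀ i < b, x i = x' i) :
    wt x a b = wt x' a b := by
  unfold wt H
  have e : ∑ i ∈ Finset.Ico a b, x i = ∑ i ∈ Finset.Ico a b, x' i :=
    Finset.sum_congr rfl fun i hi => h i (Finset.mem_Ico.1 hi).2
  rw [e]

theorem pf_PZM (hPZS : T_PZS) : T_PZM := by
  intro K d
  induction d using Nat.strong_induction_on with
  | _ d ih =>
    intro a
    cases d with
    | zero =>
      refine ⟨?_, ?_⟩
      · have e : (fun x : ℕ → ℝ => pz K x 0 a) = fun _ => 1 := by
          funext x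
          exact (hPZS K x a 0 0).1
        rw [e]
        exact measurable_const
      · intro x x' _
        change pz K x 0 a = pz K x' 0 a
        rw [(hPZS K x a 0 0).1, (hPZS K x' a 0 0).1]
    | succ d =>
      refine ⟨?_, ?_⟩
      · have e : (fun x : ℕ → ℝ => pz K x (d + 1) a) = fun x => ∑ j ∈ Finset.range (d + 1),
            kk K (j + 1) * wt x a (a + (j + 1)) * pz K x (d - j) (a + (j + 1)) := by
          funext x
          exact (hPZS K x a d 0).2.1
        rw [e]
        exact Finset.measurable_sum _ fun j _ =>
          (measurable_const.mul (wt_measurable _ _)).mul (ih (d - j) (by omega) _).1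
      · intro x x' h
        change pz K x (d + 1) a = pz K x' (d + 1) a
        rw [(hPZS K x a d 0).2.1, (hPZS K x' a d 0).2.1]
        refine Finset.sum_congr rfl fun j hj => ?_
        rw [Finset.mem_range] at hj
        have h1 : pz K x (d - j) (a + (j + 1)) = pz K x' (d - j) (a + (j + 1)) :=
          (ih (d - j) (by omega) (a + (j + 1))).2 x x' fun i hi => h i (by omega)
        rw [h1, wt_dep a (a + (j + 1)) x x' fun i hi => h i (by omega)]

end Pool.Agent.H19.CG
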